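import Pool.Agent.Run7.h664.FH.Asm
import Pool.Agent.Run7.h301.TF.Part

/-!
# Thompson's groups `F`, `T`, `V`

They are subgroups of the group of the permutations of Cantor space `C = {0, 1} ^ ℕ`. `V` consists of
the permutations which act near every point of `C` by the replacement of a prefix (by compactness such
a map is given by a finite table `u_i c ↦ v_i c`), `F` and `T` consist of the elements of `V` which
preserve the lexicographic order and the cyclic order of `C`, respectively.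
-/

set_option autoImplicit false

namespace Run7.h664.FH

/-- Thompson's group `V` -/
def V : Subgroup (Equiv.Perm C) where
  carrier := {g | Loc g}
  mul_mem' := fun {g h} hg hh => Run7.h301.TF.t_VSUB.2.1 g h hg hh
  one_mem' := Run7.h301.TF.t_VSUB.1
  inv_mem' := fun {g} hg => Run7.h301.TF.t_VSUB.2.2 g hg

/-- Thompson's group `F` -/
def F : Subgroup (Equiv.Perm C) where
  carrier := {g | Loc g ∧ Ord g}
  mul_mem' := fun {g h} hg hh => ⟨Run7.h301.TF.t_VSUB.2.1 g h hg.1 hh.1,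
    fun c c' hc => hg.2 _ _ (hh.2 c c' hc)⟩
  one_mem' := ⟨Run7.h301.TF.t_VSUB.1, fun _ _ h => h⟩
  inv_mem' := fun {g} hg => ⟨Run7.h301.TF.t_VSUB.2.2 g hg.1, Run7.h301.TF.t_OSUB.1 g hg.2⟩

/-- Thompson's group `T` -/
def T : Subgroup (Equiv.Perm C) where
  carrier := {g | Loc g ∧ Cyc g}
  mul_mem' := fun {g h} hg hh => ⟨Run7.h301.TF.t_VSUB.2.1 g h hg.1 hh.1,
    fun a b c hc => hg.2 _ _ _ (hh.2 a b c hc)⟩
  one_mem' := ⟨Run7.h301.TF.t_VSUB.1, fun _ _ _ h => h⟩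
  inv_mem' := fun {g} hg => ⟨Run7.h301.TF.t_VSUB.2.2 g hg.1, Run7.h301.TF.t_OSUB.2 g hg.2⟩

theorem F_le_T : F ≤ T := by
  rintro g ⟨h1, h2⟩
  refine ⟨h1, fun a b c h => ?_⟩
  rcases h with ⟨h3, h4⟩ | ⟨h3, h4⟩ | ⟨h3, h4⟩
  · exact Or.inl ⟨h2 _ _ h3, h2 _ _ h4⟩
  · exact Or.inr (Or.inl ⟨h2 _ _ h3, h2 _ _ h4⟩)
  · exact Or.inr (Or.inr ⟨h2 _ _ h3, h2 _ _ h4⟩)

theorem T_le_V : T ≤ V := fun _ h => h.1

theorem al_mem : al ∈ F := Run7.h301.TF.t_AMEM

theorem LL_mem (b : Bool) {p : Equiv.Perm C} (h : p ∈ F) : LL b p ∈ F :=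
  ⟨(Run7.h301.TF.t_LMEM b p).1 h.1, (Run7.h301.TF.t_LMEM b p).2 h.2⟩

/-- subgroups of `Perm C` which contain `F` do not have the heat property -/
theorem no_heat_of (hC : S_CRIT) (Γ : Subgroup (Equiv.Perm C)) (h : F ≤ Γ) :
    ¬ Pool.Agent.R499.HT.Heat Γ :=
  main_of hC Γ (h al_mem) (h (LL_mem _ al_mem)) (h (LL_mem _ (LL_mem _ al_mem)))

end Run7.h664.FH
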