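import Pool.Agent.Run7.h664.FH.TDefs
import Pool.Agent.R499.HT.Stm

/-! Thompson's groups do not have the heat property: the elements used in the criterion. -/

set_option autoImplicit false

namespace Run7.h664.FH

open Pool.Agent.R499.HT (Heat)

/-- the criterion -/
def S_CRIT : Prop := ∀ (G : Type) [Group G] (Q : Subgroup G) (x g0 g1 : G), x ∈ Q → x⁻¹ ≠ x →
  (∀ q ∈ Q, g0 * q * g0⁻¹ ∈ Q) → (∀ q ∈ Q, g1 * q * g1⁻¹ ∈ Q) →
  (∀ q ∈ Q, ∀ r ∈ Q, (g0 * q * g0⁻¹) * (g1 * r * g1⁻¹) = (g1 * r * g1⁻¹) * (g0 * q * g0⁻¹)) →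
  (∀ q ∈ Q, ∀ r ∈ Q, g0 * q * g0⁻¹ = g1 * r * g1⁻¹ → q = 1) → ¬ Heat G

/-- `p` fixes the points outside of the cone of `u` -/
def Fix (u : List Bool) (p : Equiv.Perm C) : Prop := ∀ c, (∀ d, c ≠ pre u d) → p c = c

lemma fix_conj {u v : List Bool} {g p : Equiv.Perm C} (hp : Fix u p)
    (hg : ∀ d, ∃ d', g (pre u d) = pre v d') : Fix v (g * p * g⁻¹) := by
  intro c hc
  have h1 : p (g⁻¹ c) = g⁻¹ c := by
    apply hp
    intro d hd
    obtain ⟨d', hd'⟩ := hg d
    apply hc d'
    rw [← hd', ← hd]
    simp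
  show g (p (g⁻¹ c)) = c
  rw [h1]
  simp

lemma fix_mono {u v w : List Bool} {p : Equiv.Perm C} (hp : Fix u p)
    (h : ∀ d, ∃ d', pre u d = pre v d') : Fix v p := by
  intro c hc
  apply hp
  intro d hd
  obtain ⟨d', hd'⟩ := h d
  exact hc d' (hd.trans hd')

theorem main_of (hC : S_CRIT) (Γ : Subgroup (Equiv.Perm C)) (h1 : al ∈ Γ)
    (h2 : LL false al ∈ Γ) (h3 : LL false (LL true al) ∈ Γ) : ¬ Heat Γ := by
  obtain ⟨Q, hQ⟩ : ∃ Q : Subgroup Γ, ∀ p : Γ, p ∈ Q ↔ Fix [false, true] (p : Equiv.Perm C) := by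
    refine ⟨⟨⟨⟨{p : Γ | Fix [false, true] (p : Equiv.Perm C)}, ?_⟩, ?_⟩, ?_⟩, fun p => Iff.rfl⟩
    · intro p p' hp hp' c hc
      show (p : Equiv.Perm C) ((p' : Equiv.Perm C) c) = c
      rw [hp' c hc, hp c hc]
    · intro c _
      rfl
    · intro p hp c hc
      show (p : Equiv.Perm C)⁻¹ c = c
      rw [Equiv.Perm.inv_eq_iff_eq]
      exact (hp c hc).symm
  have hg1 : ∀ d, ∃ d', (LL false al) (pre [false, true] d) = pre [false, true, true] d' := by
    intro d
    refine ⟨d, ?_⟩
    show LL false al (cons false (cons true d)) = cons false (cons true (cons true d))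
    rw [LL_same]
    rfl
  have hg0 : ∀ d, ∃ d', (LL false al * al⁻¹) (pre [false, true] d) =
      pre [false, true, false] d' := by
    intro d
    refine ⟨d, ?_⟩
    have h4 : al⁻¹ (cons false (cons true d)) = cons false (cons false (cons true d)) := rfl
    show LL false al (al⁻¹ (cons false (cons true d))) = cons false (cons true (cons false d))
    rw [h4, LL_same]
    rfl
  have hs0 : ∀ d, ∃ d', pre [false, true, false] d = pre [false, true] d' := fun d =>
    ⟨cons false d, rfl⟩
  have hs1 : ∀ d, ∃ d', pre [false, true, true] d = pre [false, true] d' := fun d =>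
    ⟨cons true d, rfl⟩
  have hdis : ∀ c, (∀ d, c ≠ pre [false, true, false] d) ∨ ∀ d, c ≠ pre [false, true, true] d := by
    intro c
    by_cases h : c 2 = true
    · left
      intro d hd
      rw [hd] at h
      exact absurd h (by simp [pre, show (2 : ℕ) = 1 + 1 from rfl, cons])
    · right
      intro d hd
      apply h
      rw [hd]
      rfl
  have key : ∀ q r : Γ, q ∈ Q → r ∈ Q →
      Equiv.Perm.Disjoint ((LL false al * al⁻¹) * (q : Equiv.Perm C) * (LL false al * al⁻¹)⁻¹)
        (LL false al * (r : Equiv.Perm C) * (LL false al)⁻¹) := by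
    intro q r hq hr c
    have h5 := fix_conj ((hQ q).1 hq) hg0
    have h6 := fix_conj ((hQ r).1 hr) hg1
    rcases hdis c with h | h
    · exact Or.inl (h5 c h)
    · exact Or.inr (h6 c h)
  refine hC Γ Q ⟨LL false (LL true al), h3⟩ ⟨LL false al * al⁻¹, Γ.mul_mem h2 (Γ.inv_mem h1)⟩
    ⟨LL false al, h2⟩ ?_ ?_ ?_ ?_ ?_ ?_
  · rw [hQ]
    intro c hc
    obtain ⟨a, c1, rfl⟩ := cases_cons c
    obtain ⟨b, c2, rfl⟩ := cases_cons c1
    show LL false (LL true al) (cons a (cons b c2)) = cons a (cons b c2)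
    by_cases ha : a = false
    · subst ha
      rw [LL_same]
      by_cases hb : b = true
      · subst hb
        exact absurd rfl (hc c2)
      · rw [LL_other hb]
    · rw [LL_other ha]
  · intro h
    have h4 : (LL false (LL true al))⁻¹ = LL false (LL true al) := congrArg Subtype.val h
    have h5 := congrArg (fun p : Equiv.Perm C => p (cons false (cons true (cons true
      (cons true (cons false fun _ => false)))))) h4
    have h6 : cons false (cons true (cons true
      (cons true (cons false fun _ => false)))) = LL false (LL true al) (LL false (LL true al)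
        (cons false (cons true (cons true (cons true (cons false fun _ => false)))))) := by
      rw [← Equiv.Perm.inv_eq_iff_eq]
      exact h5
    rw [LL_same, LL_same, LL_same, LL_same] at h6
    have h7 := congrFun h6 4
    exact absurd h7 (by decide)
  · intro q hq
    rw [hQ]
    exact fix_mono (w := []) (fix_conj ((hQ q).1 hq) hg0) hs0
  · intro q hq
    rw [hQ]
    exact fix_mono (w := []) (fix_conj ((hQ q).1 hq) hg1) hs1
  · intro q hq r hr
    apply Subtype.ext
    exact (key q r hq hr).commute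
  · intro q hq r hr h
    have h4 := key q r hq hr
    have h5 : (LL false al * al⁻¹) * (q : Equiv.Perm C) * (LL false al * al⁻¹)⁻¹ =
      LL false al * (r : Equiv.Perm C) * (LL false al)⁻¹ := congrArg Subtype.val h
    apply Subtype.ext
    have h6 : (LL false al * al⁻¹) * (q : Equiv.Perm C) * (LL false al * al⁻¹)⁻¹ = 1 := by
      ext1 c
      rcases h4 c with h7 | h7
      · exact h7
      · rw [h5]
        exact h7
    rw [mul_inv_eq_one] at h6
    show (q : Equiv.Perm C) = 1
    exact mul_left_cancel (h6.trans (mul_one _).symm)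

end Run7.h664.FH
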