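import Mathlib

/-! Thompson's groups `F`, `T`, `V` acting on Cantor space: definitions and statements of the
pieces. -/

set_option autoImplicit false

namespace Run7.h664.FH

/-- Cantor space -/
abbrev C : Type := ℕ → Bool

/-- the letter `b` followed by `c` -/
def cons (b : Bool) (c : C) : C
  | 0 => b
  | n + 1 => c n

def tl (c : C) : C := fun n => c (n + 1)

@[simp] lemma tl_cons (b : Bool) (c : C) : tl (cons b c) = c := rfl

@[simp] lemma cons_zero (b : Bool) (c : C) : cons b c 0 = b := rfl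

@[simp] lemma cons_succ (b : Bool) (c : C) (n : ℕ) : cons b c (n + 1) = c n := rfl

lemma cons_tl (c : C) : cons (c 0) (tl c) = c := by
  funext n
  cases n <;> rfl

lemma cases_cons (c : C) : ∃ b c', c = cons b c' := ⟨c 0, tl c, (cons_tl c).symm⟩

/-- the word `u` followed by `c` -/
def pre : List Bool → C → C
  | [], c => c
  | b :: u, c => cons b (pre u c)

/-- the maps `00c ↦ 0c, 01c ↦ 10c, 1c ↦ 11c` -/
def alf (c : C) : C :=
  match c 0, c 1 with
  | false, false => cons false (tl (tl c))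
  | false, true => cons true (cons false (tl (tl c)))
  | true, _ => cons true (cons true (tl c))

/-- the maps `0c ↦ 00c, 10c ↦ 01c, 11c ↦ 1c` -/
def ali (c : C) : C :=
  match c 0, c 1 with
  | false, _ => cons false (cons false (tl c))
  | true, false => cons false (cons true (tl (tl c)))
  | true, true => cons true (tl (tl c))

lemma ali_alf (c : C) : ali (alf c) = c := by
  obtain ⟨a, c1, rfl⟩ := cases_cons c
  obtain ⟨b, c2, rfl⟩ := cases_cons c1
  rcases a with _ | _ <;> rcases b with _ | _ <;> rfl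

lemma alf_ali (c : C) : alf (ali c) = c := by
  obtain ⟨a, c1, rfl⟩ := cases_cons c
  obtain ⟨b, c2, rfl⟩ := cases_cons c1
  rcases a with _ | _ <;> rcases b with _ | _ <;> rfl

/-- the generator `00c ↦ 0c, 01c ↦ 10c, 1c ↦ 11c` -/
def al : Equiv.Perm C := ⟨alf, ali, ali_alf, alf_ali⟩

/-- `p` inside the cylinder `[b]`, the identity elsewhere -/
def Lf (b : Bool) (p : C → C) (c : C) : C := if c 0 = b then cons b (p (tl c)) else c

lemma Lf_same (b : Bool) (p : C → C) (c : C) : Lf b p (cons b c) = cons b (p c) := by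
  simp [Lf]

lemma Lf_other {b a : Bool} (h : a ≠ b) (p : C → C) (c : C) : Lf b p (cons a c) = cons a c := by
  simp [Lf, h]

/-- `p` inside the cylinder `[b]`, the identity elsewhere -/
def LL (b : Bool) (p : Equiv.Perm C) : Equiv.Perm C := ⟨Lf b p, Lf b p.symm, by
  intro c
  obtain ⟨a, c1, rfl⟩ := cases_cons c
  by_cases h : a = b
  · subst h
    rw [Lf_same, Lf_same, Equiv.symm_apply_apply]
  · rw [Lf_other h, Lf_other h], by
  intro c
  obtain ⟨a, c1, rfl⟩ := cases_cons c
  by_cases h : a = b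
  · subst h
    rw [Lf_same, Lf_same, Equiv.apply_symm_apply]
  · rw [Lf_other h, Lf_other h]⟩

lemma LL_same (b : Bool) (p : Equiv.Perm C) (c : C) : LL b p (cons b c) = cons b (p c) :=
  Lf_same b p c

lemma LL_other {b a : Bool} (h : a ≠ b) (p : Equiv.Perm C) (c : C) :
    LL b p (cons a c) = cons a c := Lf_other h p c

/-- `g` acts near every point as the replacement of a prefix -/
def Loc (g : Equiv.Perm C) : Prop := ∀ c : C, ∃ (u v : List Bool) (c' : C), c = pre u c' ∧
  ∀ c'' : C, g (pre u c'') = pre v c''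

/-- the lexicographic order -/
def lt (c c' : C) : Prop := ∃ n, (∀ i < n, c i = c' i) ∧ c n = false ∧ c' n = true

/-- the cyclic order -/
def cyc (a b c : C) : Prop := (lt a b ∧ lt b c) ∨ (lt b c ∧ lt c a) ∨ (lt c a ∧ lt a b)

/-- `g` preserves the order -/
def Ord (g : Equiv.Perm C) : Prop := ∀ c c', lt c c' → lt (g c) (g c')

/-- `g` preserves the cyclic order -/
def Cyc (g : Equiv.Perm C) : Prop := ∀ a b c, cyc a b c → cyc (g a) (g b) (g c)

/-- VSUB -/
def S_VSUB : Prop := Loc 1 ∧ (∀ g h, Loc g → Loc h → Loc (g * h)) ∧ ∀ g, Loc g → Loc g⁻¹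

/-- OSUB -/
def S_OSUB : Prop := (∀ g, Ord g → Ord g⁻¹) ∧ (∀ g, Cyc g → Cyc g⁻¹)

/-- AMEM -/
def S_AMEM : Prop := Loc al ∧ Ord al

/-- LMEM -/
def S_LMEM : Prop := ∀ (b : Bool) (p : Equiv.Perm C), (Loc p → Loc (LL b p)) ∧
  (Ord p → Ord (LL b p))

end Run7.h664.FH
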